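import Pool.Agent.helper34.AC.Spec2

/-!
Module BLO of project ac: (MP_e0bd72_co): `gb n * log (gb n) ≥ n`.
-/

set_option autoImplicit false

namespace Pool.Agent.helper34.AC

theorem BLO (hBRC : BRC_stmt) (hLAM : LAM_stmt) : BLO_stmt := by
  obtain ⟨hF0, -, hFz, hF1, -, hbl, -⟩ := hBRC
  obtain ⟨hmono, -, hlog⟩ := hLAM
  intro n
  rcases n with _ | m
  · have h0 : bl 0 = 1 := by rw [← hFz 0, hF0 0]
    have h1 : bl (0 + 1) = 1 := by rw [← hF1 0, hF0 1]
    have hg : gb 0 = 1 := by
      unfold gb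
      rw [h0, h1]
      norm_num
    rw [hg]
    constructor
    · exact le_refl _
    · simp
  · obtain ⟨x, hx, hxl⟩ := hlog m 0 le_rfl
    have hg : gb (m + 1) = F (m + 1) (0 + 1) / F (m + 1) 0 := by
      unfold gb
      rw [zero_add, hF1 (m + 1), hFz (m + 1)]
    have hgpos : 0 < gb (m + 1) := by
      unfold gb
      exact div_pos (hbl _) (hbl _)
    have hl1 : lm m 1 = ((m : ℝ) + 1) / gb (m + 1) := by
      unfold lm gb
      rw [hF1 m, hF1 (m + 1)]
      have ha := (hbl (m + 1)).ne'
      have hb := (hbl (m + 1 + 1)).ne'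
      field_simp
    have hle : ((m : ℝ) + 1) / gb (m + 1) ≤ Real.log (gb (m + 1)) := by
      rw [← hl1, hg, hxl]
      exact hmono m x 1 hx.1 (by simpa using hx.2)
    have hm : (0 : ℝ) < (m : ℝ) + 1 := by positivity
    have hq : 0 < ((m : ℝ) + 1) / gb (m + 1) := div_pos hm hgpos
    constructor
    · by_contra hcon
      push Not at hcon
      have hnp := Real.log_nonpos hgpos.le hcon.le
      linarith
    · have hk := (div_le_iff₀ hgpos).mp hle
      push_cast
      linarith [mul_comm (Real.log (gb (m + 1))) (gb (m + 1))]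

end Pool.Agent.helper34.AC
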