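import Pool.Agent.helper34.AC.Spec4

/-!
Module BSZ of project ac: (MP_e0bd72_co): moments of the block size of a vertex.
-/

set_option autoImplicit false

namespace Pool.Agent.helper34.AC

theorem BSZ_cs {V : Type} [DecidableEq V] (G : SimpleGraph V) (U S : Finset V) (y : V)
    (hS : S ∈ st G {y} (U.erase y)) (P : Finset (Finset V)) (hP : P ∈ col G (U.erase y \ S)) :
    cs (insert (insert y S) P) y = S.card + 1 := by
  have hSs : S ⊆ U.erase y := by
    have h := hS
    unfold st at h
    simp only [Finset.mem_filter, Finset.mem_powerset] at h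
    exact h.1
  have hyS : y ∉ S := fun h => by
    have := hSs h
    simp at this
  have hPs : ∀ B ∈ P, B ⊆ U.erase y \ S := by
    have h := hP
    unfold col at h
    simp only [Finset.mem_filter] at h
    intro B hB
    exact (h.2.1 B hB).2.1
  have hf : (insert (insert y S) P).filter (fun B => y ∈ B) = {insert y S} := by
    ext B
    simp only [Finset.mem_filter, Finset.mem_insert, Finset.mem_singleton]
    constructor
    · rintro ⟨h1 | h1, h2⟩
      · exact h1
      · have := hPs B h1 h2
        simp at this
    · rintro rfl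
      exact ⟨Or.inl rfl, Finset.mem_insert_self _ _⟩
  unfold cs
  rw [hf, Finset.sum_singleton, Finset.card_insert_of_notMem hyS]

theorem BSZ (hREC : REC_stmt) (hRCN : RCN_stmt) : BSZ_stmt := by
  intro V _ G U y hy
  have h1 : ∀ f : ℕ → ℝ, ∑ P ∈ col G U, f (cs P y) =
      ∑ S ∈ st G {y} (U.erase y), f (S.card + 1) * N G (U.erase y \ S) := by
    intro f
    rw [hREC V G U y (fun P => f (cs P y)) hy]
    apply Finset.sum_congr rfl
    intro S hS
    rw [Finset.sum_congr rfl (fun P hP => by rw [BSZ_cs G U S y hS P hP]), Finset.sum_const,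
      nsmul_eq_mul, mul_comm]
    rfl
  have h0 := (hRCN V G U y hy).1
  refine ⟨h1, ?_, ?_⟩
  · rw [h1 (fun n => (n : ℝ)), h0]
    unfold Mk
    rw [← Finset.sum_add_distrib]
    apply Finset.sum_congr rfl
    intro S _
    simp only [Nat.descFactorial_zero, Nat.descFactorial_one]
    push_cast
    ring
  · rw [h1 (fun n => (n : ℝ) ^ 2), h0]
    unfold Mk
    rw [Finset.mul_sum, ← Finset.sum_add_distrib, ← Finset.sum_add_distrib]
    apply Finset.sum_congr rfl
    intro S _
    have h2 : ((S.card.descFactorial 2 : ℕ) : ℝ) = (S.card : ℝ) * ((S.card : ℝ) - 1) := by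
      rcases S.card with _ | n
      · simp
      · rw [Nat.descFactorial_succ, Nat.descFactorial_one]
        push_cast [Nat.add_sub_cancel]
        ring
    rw [h2]
    simp only [Nat.descFactorial_zero, Nat.descFactorial_one]
    push_cast
    ring

end Pool.Agent.helper34.AC
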