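import Pool.Agent.helper34.AC.Spec

/-!
Module FM1 of project ac: (MP_e0bd72_co): the first moment is bounded by `w` times the zeroth moment.
-/

set_option autoImplicit false

namespace Pool.Agent.helper34.AC

theorem FM1_nonneg {V : Type} [DecidableEq V] (G : SimpleGraph V) (X R : Finset V) (k : ℕ) :
    0 ≤ Mk G X R k := by
  unfold Mk N
  apply Finset.sum_nonneg
  intro S _
  positivity

theorem FM1_st {V : Type} (G : SimpleGraph V) (X R : Finset V)
    (h : ∀ y ∈ R, ∀ x ∈ X, ¬ G.Adj x y) : st G X R = st G ∅ R := by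
  ext S
  unfold st
  simp only [Finset.mem_filter, Finset.mem_powerset]
  constructor
  · rintro ⟨hS, h1⟩
    refine ⟨hS, fun x hx => ⟨(h1 x hx).1, ?_⟩⟩
    intro y hy
    simp at hy
  · rintro ⟨hS, h1⟩
    refine ⟨hS, fun x hx => ⟨(h1 x hx).1, ?_⟩⟩
    intro y hy hxy
    exact h x (hS hx) y hy hxy.symm

theorem FM1 (hCNE : CNE_stmt) (hDEC : DEC_stmt) : FM1_stmt := by
  intro V _ G X R w hw
  induction hn : R.card using Nat.strong_induction_on generalizing R with
  | _ n ih =>
    intro hOm
    by_cases hadj : ∃ y ∈ R, ∃ x ∈ X, G.Adj x y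
    · obtain ⟨y, hy, x, hx, hxy⟩ := hadj
      rw [hDEC V G X R y x 1 hy hx hxy, hDEC V G X R y x 0 hy hx hxy, Finset.mul_sum]
      apply Finset.sum_le_sum
      intro Q _
      have hsub : R.erase y \ Q ⊆ R :=
        Finset.sdiff_subset.trans (Finset.erase_subset _ _)
      have hlt : (R.erase y \ Q).card < n := by
        have h1 : (R.erase y \ Q).card ≤ (R.erase y).card :=
          Finset.card_le_card Finset.sdiff_subset
        have h2 := Finset.card_erase_lt_of_mem hy
        omega
      have h3 := ih (R.erase y \ Q).card hlt (R.erase y \ Q) rfl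
        (fun U hU => hOm U (hU.trans hsub))
      have h4 : w (R.erase y \ Q).card ≤ w n := hw hlt.le
      exact h3.trans (mul_le_mul_of_nonneg_right h4 (FM1_nonneg G X _ 0))
    · push Not at hadj
      have hst := FM1_st G X R hadj
      have hk : ∀ k : ℕ, Mk G X R k = Mk G ∅ R k := by
        intro k
        unfold Mk
        rw [hst]
      obtain ⟨h0, h1⟩ := hCNE V G R
      rw [hk 0, hk 1, ← h0, ← h1, ← hn]
      exact hOm R (Finset.Subset.refl R)

end Pool.Agent.helper34.AC
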